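import Pool.Agent.H37.CNH.Stmts
import Pool.Agent.H1.CND.SAM

/-!
# Row HST of the board `cnh`: one step of the theorem of Hasse and Arf
-/

set_option autoImplicit false

namespace Pool.CND

open Finset

namespace HST

/-- `b` of a power depends on the valuation of the exponent only -/
theorem b_pow (h1 : S_LON) (h2 : S_INJ) {p : ℕ} {k L : Type} [Field k] [Field L] [Algebra k L]
    (P : Place k L) (γ : L ≃ₐ[k] L) {n : ℕ} (hp : p.Prime) (hF : Fixes P γ)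
    (ho : orderOf γ = p ^ (n + 1)) {s : ℕ} (hs : 1 ≤ s) (hs' : s < p ^ (n + 1)) :
    P.b (γ ^ s) = P.b (γ ^ (p ^ padicValNat p s)) := by
  have : Fact p.Prime := ⟨hp⟩
  have hs0 : s ≠ 0 := by omega
  obtain ⟨t, ht⟩ := pow_padicValNat_dvd (p := p) (n := s)
  have hpt : ¬ p ∣ t := by
    rintro ⟨c, rfl⟩
    refine pow_succ_padicValNat_not_dvd (p := p) hs0 ?_
    rw [pow_succ]
    exact ⟨c, by rw [mul_assoc]; exact ht⟩
  have ht1 : 1 ≤ t := by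
    rcases Nat.eq_zero_or_pos t with h | h
    · exact absurd (h ▸ dvd_zero p) hpt
    · exact h
  obtain ⟨g, hg⟩ : ∃ g : L ≃ₐ[k] L, g = γ ^ (p ^ padicValNat p s) := ⟨_, rfl⟩
  have hgt : γ ^ s = g ^ t := by
    rw [hg, ← pow_mul, ← ht]
  have hgF : Fixes P g := by rw [hg]; exact hF.pow _
  have hgN : g ^ (p ^ (n + 1)) = 1 := by
    rw [hg, ← pow_mul, mul_comm, pow_mul, ← ho, pow_orderOf_eq_one, one_pow]
  have hgt1 : g ^ t ≠ 1 := by
    rw [← hgt]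
    exact pow_ne_one_of_lt_orderOf hs0 (by rw [ho]; exact hs')
  have hg1 : g ≠ 1 := by
    intro h
    rw [h, one_pow] at hgt1
    exact hgt1 rfl
  have hcop : Nat.Coprime t (p ^ (n + 1)) :=
    Nat.Coprime.pow_right _ ((Nat.Prime.coprime_iff_not_dvd hp).2 hpt).symm
  have hN1 : 1 < p ^ (n + 1) := Nat.one_lt_pow (by omega) hp.one_lt
  obtain ⟨m, hm⟩ : ∃ m : ℕ, t * m % (p ^ (n + 1)) = 1 := by
    obtain ⟨m, hm⟩ := Nat.exists_mul_mod_eq_one_of_coprime hcop hN1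
    exact ⟨m, hm.2⟩
  have e1 : (g ^ t) ^ m = g := by
    rw [← pow_mul, pow_eq_pow_mod _ hgN, hm, pow_one]
  rw [hgt, ← hg]
  apply le_antisymm
  · have h := sam_mono h1 h2 P (g ^ t) (hgF.pow t) hgt1 m (by rw [e1]; exact hg1)
    rwa [e1] at h
  · exact sam_mono h1 h2 P g hgF hg1 t hgt1

/-- the sum, modulo a power of `p` -/
theorem arith (p : ℕ) (i : ℕ → ℤ) : ∀ m : ℕ,
    (∀ j, 1 ≤ j → j < m + 1 → ((p ^ j : ℕ) : ℤ) ∣ i j - i (j - 1)) →
    (p : ℤ) ^ (m + 1) ∣ (∑ j ∈ range (m + 1),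
      (((p ^ (m + 1 + 1 - j) : ℕ) : ℤ) - ((p ^ (m + 1 + 1 - j - 1) : ℕ) : ℤ)) * i j) + p * i m := by
  intro m
  induction m with
  | zero =>
    intro _
    rw [Finset.sum_range_one]
    refine ⟨(p : ℤ) * i 0, ?_⟩
    push_cast
    ring
  | succ m ih =>
    intro h
    have h1 := ih fun j hj hj' => h j hj (by omega)
    have h2 := h (m + 1) (by omega) (by omega)
    rw [Finset.sum_range_succ]
    have h3 : ∀ j ∈ range (m + 1),
        (((p ^ (m + 1 + 1 + 1 - j) : ℕ) : ℤ) - ((p ^ (m + 1 + 1 + 1 - j - 1) : ℕ) : ℤ)) * i j =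
        (p : ℤ) * ((((p ^ (m + 1 + 1 - j) : ℕ) : ℤ) - ((p ^ (m + 1 + 1 - j - 1) : ℕ) : ℤ)) * i j) := by
      intro j hj
      rw [Finset.mem_range] at hj
      have e1 : m + 1 + 1 + 1 - j = (m + 1 + 1 - j) + 1 := by omega
      have e2 : m + 1 + 1 + 1 - j - 1 = (m + 1 + 1 - j - 1) + 1 := by omega
      rw [e2, e1, pow_succ, pow_succ]
      push_cast
      ring
    rw [Finset.sum_congr rfl h3, ← Finset.mul_sum]
    have e3 : m + 1 + 1 + 1 - (m + 1) = 2 := by omega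
    rw [e3, Nat.add_sub_cancel] at *
    obtain ⟨c, hc⟩ := h1
    obtain ⟨c', hc'⟩ := h2
    refine ⟨c + p * c', ?_⟩
    push_cast at hc hc' ⊢
    have e4 : ((p : ℤ) ^ 2 - (p : ℤ) ^ (2 - 1)) = (p : ℤ) ^ 2 - p := by norm_num
    rw [e4]
    rw [pow_succ]
    linear_combination (p : ℤ) * hc + (p : ℤ) ^ 2 * hc'

end HST

open HST in
/-- one step -/
theorem hst_thm (hCN : S_HCN) (hXS : S_HXS) (hTR : S_HTR) (hSD : S_HSD) (h1 : S_LON)
    (h2 : S_INJ) : S_HST := by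
  intro p k L _ _ _ P γ n hp hn hF ho hj
  have : Fact p.Prime := ⟨hp⟩
  obtain ⟨m, rfl⟩ : ∃ m, n = m + 1 := ⟨n - 1, by omega⟩
  obtain ⟨e, he⟩ : ∃ e, e = p ^ (m + 1 + 1) := ⟨_, rfl⟩
  rw [← he] at ho
  have he2 : 2 ≤ e := by
    rw [he]
    exact Nat.one_lt_pow (by omega) hp.one_lt
  obtain ⟨i, hi⟩ : ∃ i : ℕ → ℤ, i = fun j => P.b (γ ^ (p ^ j)) := ⟨_, rfl⟩
  have hi' : ∀ j, P.b (γ ^ (p ^ j)) = i j := fun j => by rw [hi]
  simp only [hi'] at hj ⊢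
  obtain ⟨d, hd⟩ : ∃ d : ℤ, d = ∑ j ∈ Ico 1 e, (P.b (γ ^ j) + 1) := ⟨_, rfl⟩
  have hA : ((p ^ (m + 1) : ℕ) : ℤ) ∣ (-1 - d) - i (m + 1 - 1) := by
    by_contra hcon
    obtain ⟨s, hs1, hs2, _, hs4⟩ := hCN p (m + 1) i (-1 - d) hp hn hj hcon
    have hs1' : γ ^ s ≠ 1 := pow_ne_one_of_lt_orderOf (by omega) (by rw [ho, he]; exact hs2)
    obtain ⟨x, _, _, hx3, hx4⟩ := hXS k L P γ s hs1 hF hs1' (fun h =>
      hs1' (h2 k L P (γ ^ s) P.pi (hF.pow s) P.pi_ne P.ord_pi h))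
    have hz : γ x - x ≠ 0 := sub_ne_zero.2 hx3
    refine hTR k L P γ e (γ x - x) he2 hF ho hz ?_ ?_
    · rw [← hd, hx4, b_pow h1 h2 P γ hp hF (by rw [ho, he]) hs1 hs2, hi', he]
      have h3 : (s : ℤ) + i (padicValNat p s) + 1 + d =
          (s : ℤ) + i (padicValNat p s) - (-1 - d) := by ring
      rw [h3]
      exact hs4
    · have h3 : ∀ j ∈ range e, (γ ^ j) (γ x - x) = (γ ^ (j + 1)) x - (γ ^ j) x := by
        intro j _
        rw [map_sub, pow_succ, AlgEquiv.mul_apply]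
      rw [Finset.sum_congr rfl h3, Finset.sum_range_sub (fun j => (γ ^ j) x), ← ho,
        pow_orderOf_eq_one, pow_zero, AlgEquiv.one_apply, sub_self]
  have hB : d = ((e : ℤ) - 1) + ∑ j ∈ range (m + 1 + 1),
      (((p ^ (m + 1 + 1 - j) : ℕ) : ℤ) - ((p ^ (m + 1 + 1 - j - 1) : ℕ) : ℤ)) * i j := by
    rw [← hSD p (m + 1 + 1) i hp, hd, Finset.sum_add_distrib, Finset.sum_const, Nat.card_Ico,
      nsmul_eq_mul, mul_one, ← he, Nat.cast_sub (by omega), Nat.cast_one, add_comm]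
    congr 1
    refine Finset.sum_congr rfl fun j hj' => ?_
    rw [Finset.mem_Ico] at hj'
    rw [b_pow h1 h2 P γ hp hF (by rw [ho, he]) hj'.1 (by rw [← he]; exact hj'.2), hi']
  have hC := arith p i m hj
  rw [Finset.sum_range_succ] at hB
  obtain ⟨T0, hT0⟩ : ∃ T0 : ℤ, T0 = ∑ j ∈ range (m + 1),
      (((p ^ (m + 1 + 1 - j) : ℕ) : ℤ) - ((p ^ (m + 1 + 1 - j - 1) : ℕ) : ℤ)) * i j := ⟨_, rfl⟩
  rw [← hT0] at hB hC
  have e3 : m + 1 + 1 - (m + 1) = 1 := by omega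
  rw [e3] at hB
  have hE : (p : ℤ) ^ (m + 1) ∣ (e : ℤ) := by
    rw [he]
    push_cast
    exact pow_dvd_pow _ (by omega)
  rw [Nat.add_sub_cancel] at hA ⊢
  push_cast at hA hB ⊢
  have hD : (p : ℤ) ^ (m + 1) ∣ ((p : ℤ) - 1) * (i (m + 1) - i m) := by
    have h3 : ((p : ℤ) - 1) * (i (m + 1) - i m) =
        -((-1 - d - i m) + e + (T0 + p * i m)) := by
      rw [hB]
      norm_num
      ring
    rw [h3]
    exact (dvd_add (dvd_add hA hE) hC).neg_right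
  refine IsCoprime.dvd_of_dvd_mul_left (IsCoprime.pow_left ?_) hD
  exact ⟨1, -1, by ring⟩

end Pool.CND
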